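import Pool.Agent.H857.TF.Core3

/-!
# Few exceptional parameters (N8)
-/

set_option autoImplicit false

namespace Pool.Agent.H661.TFn8

open Module Polynomial Pool.Agent.W521.Descent Pool.Agent.W521.Density Pool.Agent.W521.Count
  Pool.Agent.X297.UB Pool.Agent.H857.PB Pool.Agent.H857.PA Pool.Agent.H857.HK Pool.Agent.H857.EF
  Pool.Agent.H857.WT Pool.Agent.H857.SG Pool.Agent.H857.PD Pool.Agent.H857.TF

/-- bounds in the region -/
theorem regN_bounds {c p A B : ℤ} (hc : 0 < c) (hp : 0 < p) (h : RegN c p A B) :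
    -6 * c ≤ B ∧ B ≤ 3 * c ∧ A ^ 2 ≤ 252 * (p * c ^ 2) := by
  unfold RegN at h
  have h1 : (A ^ 2 + p * (B ^ 2 - 24 * B * c + 36 * c ^ 2)) ^ 2 ≤
      64 * p ^ 2 * c * (3 * c - B) ^ 3 := by
    linear_combination h
  have hB3 : B ≤ 3 * c := by
    by_contra hcon
    rw [not_le] at hcon
    have h2 : (3 * c - B) ^ 3 < 0 := Odd.pow_neg (by decide) (by linarith)
    have h3 : 0 < 64 * p ^ 2 * c := by positivity
    have h4 := mul_neg_of_pos_of_neg h3 h2
    have h5 := sq_nonneg (A ^ 2 + p * (B ^ 2 - 24 * B * c + 36 * c ^ 2))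
    linarith
  have hB6 : -6 * c ≤ B := by
    by_contra hcon
    rw [not_le] at hcon
    have h2 : (B + 6 * c) ^ 3 < 0 := Odd.pow_neg (by decide) (by linarith)
    have h2' : 0 < 2 * c - B := by linarith
    have h3 : 0 < p ^ 2 * (2 * c - B) := by positivity
    have h4 := mul_neg_of_pos_of_neg h3 h2
    have h5 : 0 ≤ A ^ 4 + 2 * p * A ^ 2 * (B ^ 2 - 24 * B * c + 36 * c ^ 2) := by
      have h6 : 0 ≤ B ^ 2 - 24 * B * c + 36 * c ^ 2 := by
        have h7 : 0 ≤ (-B) * c := mul_nonneg (by linarith) hc.le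
        nlinarith [sq_nonneg B, sq_nonneg c]
      positivity
    linarith
  refine ⟨hB6, hB3, ?_⟩
  have h6 : (3 * c - B) ^ 3 ≤ (9 * c) ^ 3 := pow_le_pow_left₀ (by linarith) (by linarith) 3
  have h7 : (A ^ 2 + p * (B ^ 2 - 24 * B * c + 36 * c ^ 2)) ^ 2 ≤ (216 * (p * c ^ 2)) ^ 2 := by
    calc _ ≤ 64 * p ^ 2 * c * (3 * c - B) ^ 3 := h1
      _ ≤ 64 * p ^ 2 * c * (9 * c) ^ 3 := mul_le_mul_of_nonneg_left h6 (by positivity)
      _ = (216 * (p * c ^ 2)) ^ 2 := by ring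
  have h8 := (abs_le_of_sq_le_sq' h7 (by positivity)).2
  have h9 : -(36 * c ^ 2) ≤ B ^ 2 - 24 * B * c + 36 * c ^ 2 := by
    have h10 : 0 ≤ c * (3 * c - B) := mul_nonneg hc.le (by linarith)
    nlinarith [sq_nonneg B]
  have h10 := mul_le_mul_of_nonneg_left h9 hp.le
  linarith

theorem n8 : N8 := by
  classical
  refine ⟨1500, by norm_num, ?_⟩
  intro p hpf b
  have hp2 : 2 ≤ p := hpf.out.two_le
  obtain ⟨c, hc⟩ : ∃ c : ℕ, c = p ^ b := ⟨_, rfl⟩
  have hc0 : 0 < c := by rw [hc]; exact Nat.pow_pos (by omega)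
  have e1 : (p : ℤ) ^ b = (c : ℤ) := by rw [hc]; push_cast; rfl
  have e2 : (p : ℤ) ^ (2 * b + 1) = (c : ℤ) ^ 2 * p := by rw [hc]; push_cast; ring
  have e3 : (p : ℝ) ^ b = (c : ℝ) := by rw [hc]; push_cast; rfl
  rw [e1, e2, e3]
  have hcz : (0 : ℤ) < c := by exact_mod_cast hc0
  have hpz : (0 : ℤ) < p := by exact_mod_cast (by omega : 0 < p)
  have hcr : (1 : ℝ) ≤ c := by exact_mod_cast hc0
  have hpr : (1 : ℝ) ≤ Real.sqrt p := by
    rw [Real.one_le_sqrt]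
    exact_mod_cast (by omega : 1 ≤ p)
  have hsq : Real.sqrt p ^ 2 = p := Real.sq_sqrt (Nat.cast_nonneg p)
  obtain ⟨M, hM⟩ : ∃ M : ℕ, M = ⌊16 * ((c : ℝ) * Real.sqrt p)⌋₊ := ⟨_, rfl⟩
  obtain ⟨S, hS⟩ : ∃ S : Set (ℤ × ℤ), S = {x : ℤ × ℤ | RegN (c : ℤ) p x.1 x.2 ∧
    (x.2 = 2 * (c : ℤ) ∨ ∃ n : ℤ, 4 * n = x.1 ^ 2 + p * x.2 ^ 2 ∧ (c : ℤ) ^ 2 * p ∣ n)} :=
    ⟨_, rfl⟩
  rw [← hS]
  obtain ⟨T1, hT1⟩ : ∃ T1 : Finset (ℤ × ℤ), T1 =
    (Finset.Icc (-(M : ℤ)) M).image (fun A => (A, 2 * (c : ℤ))) := ⟨_, rfl⟩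
  obtain ⟨T2, hT2⟩ : ∃ T2 : Finset (ℤ × ℤ), T2 =
    ((Finset.Icc (0 : ℤ) 72) ×ˢ (Finset.Icc (-6 * (c : ℤ)) (3 * c)) ×ˢ
      ({1, -1} : Finset ℤ)).image
      (fun y : ℤ × ℤ × ℤ =>
        (y.2.2 * Int.sqrt (4 * ((c : ℤ) ^ 2 * p * y.1) - p * y.2.1 ^ 2), y.2.1)) := ⟨_, rfl⟩
  have hsub : S ⊆ ((T1 ∪ T2 : Finset (ℤ × ℤ)) : Set (ℤ × ℤ)) := by
    rintro ⟨A, B⟩ hx
    rw [hS] at hx
    obtain ⟨hR, hx⟩ := hx
    simp only at hR hx
    obtain ⟨hB6, hB3, hA⟩ := regN_bounds hcz hpz hR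
    rw [Finset.mem_coe, Finset.mem_union]
    rcases hx with hx | ⟨n, hn, hd⟩
    · left
      rw [hT1, Finset.mem_image]
      refine ⟨A, ?_, by rw [hx]⟩
      have hAr : (|A| : ℤ) ≤ M := by
        have h1 : ((A.natAbs : ℕ) : ℝ) ≤ 16 * ((c : ℝ) * Real.sqrt p) := by
          have h2 : (A : ℝ) ^ 2 ≤ 252 * (p * (c : ℝ) ^ 2) := by exact_mod_cast hA
          have h3 : ((A.natAbs : ℕ) : ℝ) = |(A : ℝ)| := by
            rw [Nat.cast_natAbs, Int.cast_abs]
          rw [h3]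
          apply abs_le_of_sq_le_sq _ (by positivity)
          have h4 : (16 * ((c : ℝ) * Real.sqrt p)) ^ 2 = 256 * (p * (c : ℝ) ^ 2) := by
            rw [mul_pow, mul_pow, hsq]
            ring
          rw [h4]
          have h5 : 0 ≤ (p : ℝ) * (c : ℝ) ^ 2 := by positivity
          linarith
        have h2 : A.natAbs ≤ M := by
          rw [hM]
          exact Nat.le_floor h1
        rw [Int.abs_eq_natAbs]
        exact_mod_cast h2
      rw [Finset.mem_Icc]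
      exact abs_le.1 hAr
    · right
      obtain ⟨j, hj⟩ := hd
      have hq : (0 : ℤ) < (c : ℤ) ^ 2 * p := by positivity
      have hB2 : B ^ 2 ≤ 36 * (c : ℤ) ^ 2 := by nlinarith
      have hn0 : 0 ≤ n := by nlinarith [sq_nonneg A, mul_nonneg hpz.le (sq_nonneg B)]
      have hj0 : 0 ≤ j := by
        by_contra hcon
        rw [not_le] at hcon
        have := mul_neg_of_pos_of_neg hq hcon
        linarith
      have hj72 : j ≤ 72 := by
        by_contra hcon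
        rw [not_le] at hcon
        have h1 : (c : ℤ) ^ 2 * p * 73 ≤ (c : ℤ) ^ 2 * p * j :=
          mul_le_mul_of_nonneg_left (by omega) hq.le
        have h2 := mul_le_mul_of_nonneg_left hB2 hpz.le
        have h3 : (c : ℤ) ^ 2 * p = p * c ^ 2 := mul_comm _ _
        rw [← hj, h3] at h1
        have h4 : (0 : ℤ) < p * c ^ 2 := by rw [← h3]; exact hq
        linarith
      rw [hT2, Finset.mem_image]
      refine ⟨(j, B, if 0 ≤ A then 1 else -1), ?_, ?_⟩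
      · rw [Finset.mem_product, Finset.mem_product]
        refine ⟨Finset.mem_Icc.2 ⟨hj0, hj72⟩, Finset.mem_Icc.2 ⟨hB6, hB3⟩, ?_⟩
        simp only
        split_ifs <;> simp
      · simp only
        have h1 : 4 * ((c : ℤ) ^ 2 * p * j) - p * B ^ 2 = A * A := by
          rw [← hj, hn]; ring
        rw [h1, Int.sqrt_eq]
        refine Prod.ext ?_ rfl
        simp only
        split_ifs with h2 <;> omega
  have hfin : S.Finite := (Finset.finite_toSet _).subset hsub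
  refine ⟨hfin, ?_⟩
  have h1 : S.ncard ≤ (T1 ∪ T2).card := by
    rw [← Set.ncard_coe_finset]
    exact Set.ncard_le_ncard hsub (Finset.finite_toSet _)
  have h2 : T1.card ≤ 2 * M + 1 := by
    rw [hT1]
    refine Finset.card_image_le.trans ?_
    rw [Int.card_Icc]
    omega
  have h3 : T2.card ≤ 73 * ((9 * c + 1) * 2) := by
    rw [hT2]
    refine Finset.card_image_le.trans ?_
    rw [Finset.card_product, Finset.card_product, Int.card_Icc, Int.card_Icc]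
    have h4 : ({1, -1} : Finset ℤ).card = 2 := by decide
    rw [h4]
    have h5 : (3 * (c : ℤ) + 1 - -6 * c).toNat = 9 * c + 1 := by omega
    rw [h5]
    have h6 : (72 + 1 - 0 : ℤ).toNat = 73 := by decide
    rw [h6]
  have h4 : S.ncard ≤ 2 * M + 1 + 73 * ((9 * c + 1) * 2) :=
    h1.trans ((Finset.card_union_le _ _).trans (add_le_add h2 h3))
  have h5 : (S.ncard : ℝ) ≤ 2 * M + 1 + 73 * ((9 * c + 1) * 2) := by exact_mod_cast h4
  have h6 : (M : ℝ) ≤ 16 * ((c : ℝ) * Real.sqrt p) := by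
    rw [hM]
    exact Nat.floor_le (by positivity)
  have h7 : (c : ℝ) ≤ c * Real.sqrt p := by
    have := mul_le_mul_of_nonneg_left hpr (by linarith : (0 : ℝ) ≤ c)
    linarith
  linarith

end Pool.Agent.H661.TFn8
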